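import Mathlib

set_option autoImplicit false

namespace Pool.Agent.H.MP_766cb7_co
open Set

section general
variable {α : Type}

/-- one exchange step -/
def Ex (A B : Set α) : Prop := ∃ a ∈ A, ∃ b, b ∉ A ∧ B = insert b (A \ {a})

theorem Ex.symm {A B : Set α} (h : Ex A B) : Ex B A := by
  obtain ⟨a, ha, b, hb, rfl⟩ := h
  have hab : a ≠ b := by rintro rfl; exact hb ha
  refine ⟨b, mem_insert _ _, a, by simp [hab], ?_⟩
  ext x
  simp only [mem_insert_iff, mem_sdiff, mem_singleton_iff]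
  by_cases h1 : x = a
  · subst h1; simp [ha]
  by_cases h2 : x = b
  · subst h2; simp [hb, h1]
  simp [h1, h2]

abbrev R (A B : Set α) : Prop := Relation.ReflTransGen Ex A B

theorem R_symm {A B : Set α} (h : R A B) : R B A := by
  induction h with
  | refl => exact .refl
  | tail _ h ih => exact .head h.symm ih

theorem R_fin {A B : Set α} (h : R A B) : (B \ A).Finite := by
  induction h with
  | refl => simp
  | tail _ h ih =>
    obtain ⟨a, -, b, -, rfl⟩ := h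
    refine (ih.insert b).subset ?_
    rintro x ⟨hx | hx, hx'⟩
    · exact Or.inl hx
    · exact Or.inr ⟨hx.1, hx'⟩

open Classical in
theorem R_card {A B : Set α} (h : R A B) :
    ∃ T : Finset α, ∀ T' : Finset α, T ⊆ T' →
      (T'.filter (· ∈ A)).card = (T'.filter (· ∈ B)).card := by
  induction h with
  | refl => exact ⟨∅, fun _ _ => rfl⟩
  | @tail B C _ h ih =>
    obtain ⟨T, hT⟩ := ih
    obtain ⟨a, ha, b, hb, rfl⟩ := h
    refine ⟨insert a (insert b T), fun T' hT' => ?_⟩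
    have h1 : a ∈ T' := hT' (by simp)
    have h2 : b ∈ T' := hT' (by simp)
    rw [hT T' (fun x hx => hT' (by simp [hx]))]
    have e : T'.filter (· ∈ insert b (B \ {a})) = insert b ((T'.filter (· ∈ B)).erase a) := by
      ext x
      simp only [Finset.mem_filter, mem_insert_iff, mem_sdiff, mem_singleton_iff, Finset.mem_insert,
        Finset.mem_erase]
      constructor
      · rintro ⟨h, rfl | ⟨h3, h4⟩⟩
        · exact Or.inl rfl
        · exact Or.inr ⟨h4, h, h3⟩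
      · rintro (rfl | ⟨h3, h4, h5⟩)
        · exact ⟨h2, Or.inl rfl⟩
        · exact ⟨h4, Or.inr ⟨h5, h3⟩⟩
    have e2 : (insert b ((T'.filter (· ∈ B)).erase a)).card = (T'.filter (· ∈ B)).card := by
      rw [Finset.card_insert_of_notMem (by simp [hb]), Finset.card_erase_of_mem (by simp [h1, ha])]
      have : 0 < (T'.filter (· ∈ B)).card := Finset.card_pos.mpr ⟨a, by simp [h1, ha]⟩
      omega
    rw [← e2, ← e]
    congr

theorem R_anti {A B : Set α} (h : R A B) (hAB : A ⊆ B) : A = B := by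
  classical
  obtain ⟨T, hT⟩ := R_card h
  refine hAB.antisymm fun x hx => ?_
  by_contra hxA
  have h1 := hT (insert x T) (Finset.subset_insert _ _)
  have h2 : (insert x T).filter (· ∈ A) ⊂ (insert x T).filter (· ∈ B) := by
    refine ⟨fun y hy => ?_, fun hc => ?_⟩
    · rw [Finset.mem_filter] at hy ⊢
      exact ⟨hy.1, hAB hy.2⟩
    · have := hc (Finset.mem_filter.mpr ⟨Finset.mem_insert_self x T, hx⟩)
      exact hxA (Finset.mem_filter.mp this).2
  have h3 := Finset.card_lt_card h2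
  convert absurd h3 _
  rw [not_lt]
  apply le_of_eq
  convert h1.symm

/-- exchange-closed antichains -/
def Good (F : Set (Set α)) : Prop :=
  (∀ A ∈ F, ∀ B ∈ F, A ⊆ B → A = B) ∧ ∀ A ∈ F, ∀ B, Ex A B → B ∈ F

theorem comp_ex {F : Set (Set α)} (hF : Good F) {Y Y' : Set α} (h : Ex Y Y')
    (hY : ∃ B ∈ F, Y ⊆ B ∨ B ⊆ Y) : ∃ B ∈ F, Y' ⊆ B ∨ B ⊆ Y' := by
  obtain ⟨a, ha, b, hb, rfl⟩ := h
  obtain ⟨B, hB, h | h⟩ := hY
  · by_cases hbB : b ∈ B
    · exact ⟨B, hB, Or.inl (insert_subset hbB (sdiff_subset.trans h))⟩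
    · exact ⟨_, hF.2 B hB _ ⟨a, h ha, b, hbB, rfl⟩,
        Or.inl (insert_subset_insert (sdiff_subset_sdiff_left h))⟩
  · by_cases haB : a ∈ B
    · exact ⟨_, hF.2 B hB _ ⟨a, haB, b, fun hc => hb (h hc), rfl⟩,
        Or.inr (insert_subset_insert (sdiff_subset_sdiff_left h))⟩
    · exact ⟨B, hB, Or.inr fun x hx => Or.inr ⟨h hx, by rintro rfl; exact haB hx⟩⟩

theorem comp_R {F : Set (Set α)} (hF : Good F) {Y Y' : Set α} (h : R Y Y')
    (hY : ∃ B ∈ F, Y ⊆ B ∨ B ⊆ Y) : ∃ B ∈ F, Y' ⊆ B ∨ B ⊆ Y' := by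
  induction h with
  | refl => exact hY
  | tail _ h ih => exact comp_ex hF h ih

theorem exists_max {F0 : Set (Set α)} (h0 : Good F0) :
    ∃ F, F0 ⊆ F ∧ Good F ∧ ∀ Y, ∃ B ∈ F, Y ⊆ B ∨ B ⊆ Y := by
  obtain ⟨F, hF0, hF⟩ := zorn_subset_nonempty {F : Set (Set α) | Good F} (by
    intro c hc hchain _
    refine ⟨⋃₀ c, ⟨?_, ?_⟩, fun s hs => subset_sUnion_of_mem hs⟩
    · rintro A ⟨F1, h1, hA⟩ B ⟨F2, h2, hB⟩ hAB
      rcases hchain.total h1 h2 with h | h
      · exact (hc h2).1 A (h hA) B hB hAB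
      · exact (hc h1).1 A hA B (h hB) hAB
    · rintro A ⟨F1, h1, hA⟩ B hAB
      exact ⟨F1, h1, (hc h1).2 A hA B hAB⟩) F0 h0
  have hG : Good F := hF.prop
  refine ⟨F, hF0, hG, fun Y => ?_⟩
  by_contra hY
  have hn : ∀ Y', R Y Y' → ¬ ∃ B ∈ F, Y' ⊆ B ∨ B ⊆ Y' :=
    fun Y' h hc => hY (comp_R hG (R_symm h) hc)
  have hG' : Good (F ∪ {Y' | R Y Y'}) := by
    constructor
    · rintro A (hA | hA) B (hB | hB) hAB
      · exact hG.1 A hA B hB hAB
      · exact absurd ⟨A, hA, Or.inr hAB⟩ (hn B hB)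
      · exact absurd ⟨B, hB, Or.inl hAB⟩ (hn A hA)
      · exact R_anti ((R_symm hA).trans hB) hAB
    · rintro A (hA | hA) B hAB
      · exact Or.inl (hG.2 A hA B hAB)
      · exact Or.inr (Relation.ReflTransGen.tail hA hAB)
  have := hF.le_of_ge (y := F ∪ {Y' | R Y Y'}) hG' subset_union_left
  exact hY ⟨Y, this (Or.inr Relation.ReflTransGen.refl), Or.inl subset_rfl⟩

open Classical in
/-- the operator attached to a family of sets -/
noncomputable def cl (F : Set (Set α)) (Y : Set α) : Set α := if ∃ B ∈ F, B ⊆ Y then univ else Y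

theorem mem_cl {F : Set (Set α)} {Y : Set α} {p : α} :
    p ∈ cl F Y ↔ (∃ B ∈ F, B ⊆ Y) ∨ p ∈ Y := by
  unfold cl
  split_ifs with h <;> simp [h]

theorem cl_ext (F : Set (Set α)) (X : Set α) : X ⊆ cl F X := fun _ h => mem_cl.mpr (Or.inr h)

theorem cl_mono (F : Set (Set α)) {X Y : Set α} (h : X ⊆ Y) : cl F X ⊆ cl F Y := by
  intro p hp
  rcases mem_cl.mp hp with ⟨B, hB, hX⟩ | hp
  · exact mem_cl.mpr (Or.inl ⟨B, hB, hX.trans h⟩)
  · exact mem_cl.mpr (Or.inr (h hp))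

theorem cl_idem (F : Set (Set α)) (X : Set α) : cl F (cl F X) = cl F X := by
  by_cases h : ∃ B ∈ F, B ⊆ X
  · have : cl F X = univ := if_pos h
    rw [this]
    exact eq_univ_of_univ_subset (cl_ext F univ)
  · have : cl F X = X := if_neg h
    rw [this, this]

theorem cl_exch {F : Set (Set α)} (hF : Good F) (X : Set α) (p q : α)
    (h1 : q ∈ cl F (insert p X)) (h2 : q ∉ cl F X) : p ∈ cl F (insert q X) := by
  rw [mem_cl, not_or] at h2
  by_cases hpq : q = p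
  · subst hpq
    exact cl_ext F _ (mem_insert _ _)
  rcases mem_cl.mp h1 with ⟨B, hB, hX⟩ | hp
  · have hpB : p ∈ B := by
      by_contra hc
      exact h2.1 ⟨B, hB, fun x hx => (hX hx).resolve_left (by rintro rfl; exact hc hx)⟩
    have hqB : q ∉ B := fun hc => (hX hc).elim hpq h2.2
    refine mem_cl.mpr (Or.inl ⟨_, hF.2 B hB _ ⟨p, hpB, q, hqB, rfl⟩, insert_subset_insert ?_⟩)
    rintro x ⟨hx, hxp⟩
    exact (hX hx).resolve_left hxp
  · exact absurd hp (by simp [hpq, h2.2])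

theorem cl_exch' {F : Set (Set α)} (hF : Good F) (A B : Set α) (q : α)
    (h1 : q ∈ cl F B) (h2 : q ∉ cl F (B \ A)) : ∃ a ∈ A, a ∈ cl F (insert q (B \ {a})) := by
  rw [mem_cl, not_or] at h2
  by_cases hqB : q ∈ B
  · have hqA : q ∈ A := by
      by_contra hc
      exact h2.2 ⟨hqB, hc⟩
    exact ⟨q, hqA, cl_ext F _ (mem_insert _ _)⟩
  obtain ⟨C, hC, hCB⟩ := (mem_cl.mp h1).resolve_right hqB
  have : ∃ a ∈ C, a ∈ A := by
    by_contra hc
    push Not at hc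
    exact h2.1 ⟨C, hC, fun x hx => ⟨hCB hx, hc x hx⟩⟩
  obtain ⟨a, haC, haA⟩ := this
  exact ⟨a, haA, mem_cl.mpr (Or.inl ⟨_, hF.2 C hC _ ⟨a, haC, q, fun h => hqB (hCB h), rfl⟩,
    insert_subset_insert (sdiff_subset_sdiff_left hCB)⟩)⟩

theorem cl_C {F : Set (Set α)} (hF : Good F) (h0 : ∅ ∉ F) (Y : Set α) (p : α) (hp : p ∈ cl F Y) :
    ∃ U : Set α, Minimal (fun W : Set α => W ⊆ Y ∧ p ∈ cl F W) U ∧ ∀ x ∈ U, x ∉ cl F (U \ {x}) := by
  have he : ∀ x, x ∉ cl F (∅ : Set α) := by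
    intro x hx
    rcases mem_cl.mp hx with ⟨B, hB, hX⟩ | hx
    · rw [subset_empty_iff] at hX
      exact h0 (hX ▸ hB)
    · exact hx
  by_cases hpY : p ∈ Y
  · refine ⟨{p}, ⟨⟨singleton_subset_iff.mpr hpY, cl_ext F _ rfl⟩, ?_⟩, ?_⟩
    · rintro W ⟨-, hW⟩ hle
      rcases subset_singleton_iff_eq.mp hle with rfl | rfl
      · exact absurd hW (he p)
      · exact le_rfl
    · rintro x rfl
      simpa using he x
  obtain ⟨B, hB, hBY⟩ := (mem_cl.mp hp).resolve_right hpY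
  refine ⟨B, ⟨⟨hBY, mem_cl.mpr (Or.inl ⟨B, hB, subset_rfl⟩)⟩, ?_⟩, ?_⟩
  · rintro W ⟨hWY, hW⟩ hle
    obtain ⟨B', hB', hBW⟩ := (mem_cl.mp hW).resolve_right (fun h => hpY (hWY h))
    rw [← hF.1 B' hB' B hB (hBW.trans hle)]
    exact hBW
  · intro x hx hc
    obtain ⟨B', hB', hBW⟩ := (mem_cl.mp hc).resolve_right (by simp)
    have := hF.1 B' hB' B hB (hBW.trans sdiff_subset)
    subst this
    exact (hBW hx).2 rfl

theorem cl_H {F : Set (Set α)} (hF : Good F) (hc : ∀ Y, ∃ B ∈ F, Y ⊆ B ∨ B ⊆ Y) (Y : Set α) (p : α)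
    (hp : p ∉ cl F Y) :
    ∃ V : Set α, Maximal (fun W : Set α => Y ⊆ W ∧ p ∉ cl F W) V ∧ cl F (insert p V) = univ := by
  rw [mem_cl, not_or] at hp
  have key : ∃ B ∈ F, Y ⊆ B ∧ p ∈ B := by
    obtain ⟨B, hB, h | h⟩ := hc Y
    · by_cases hpB : p ∈ B
      · exact ⟨B, hB, h, hpB⟩
      have : ∃ a ∈ B, a ∉ Y := by
        by_contra hcon
        push Not at hcon
        exact hp.1 ⟨B, hB, hcon⟩
      obtain ⟨a, haB, haY⟩ := this
      exact ⟨_, hF.2 B hB _ ⟨a, haB, p, hpB, rfl⟩,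
        fun x hx => Or.inr ⟨h hx, by rintro rfl; exact haY hx⟩, mem_insert _ _⟩
    · exact absurd ⟨B, hB, h⟩ hp.1
  obtain ⟨B, hB, hYB, hpB⟩ := key
  refine ⟨B \ {p}, ⟨⟨fun x hx => ⟨hYB hx, by rintro rfl; exact hp.2 hx⟩, ?_⟩, ?_⟩, ?_⟩
  · intro h
    obtain ⟨B', hB', hBW⟩ := (mem_cl.mp h).resolve_right (by simp)
    have := hF.1 B' hB' B hB (hBW.trans sdiff_subset)
    subst this
    exact (hBW hpB).2 rfl
  · rintro W ⟨-, hW⟩ hle w hw
    rw [mem_cl, not_or] at hW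
    have hwp : w ≠ p := by rintro rfl; exact hW.2 hw
    by_contra hcon
    have hwB : w ∉ B := fun h => hcon ⟨h, hwp⟩
    exact hW.1 ⟨_, hF.2 B hB _ ⟨p, hpB, w, hwB, rfl⟩, insert_subset hw hle⟩
  · apply if_pos
    exact ⟨B, hB, by simp [hpB]⟩

end general

/-- blocks: `none` and `some none` are two special blocks, and one block for each set of naturals -/
abbrev Gd : Type := Option (Option (Set ℕ)) × ℕ

def B1 : Set Gd := {p | p.1 ≠ some none}

def BZ (Z : Set ℕ) : Set Gd :=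
  {p | (∃ W, W ≠ Z ∧ p.1 = some (some W)) ∨ (p.1 = some none ∧ p.2 ∈ Z)}

def Gen : Set (Set Gd) := insert B1 {B | ∃ Z : Set ℕ, Z.Infinite ∧ B = BZ Z}

theorem inf_of {A : Set Gd} (c : Option (Option (Set ℕ))) {Z : Set ℕ} (hZ : Z.Infinite)
    (h : ∀ n ∈ Z, (c, n) ∈ A) : A.Infinite := by
  have : ((fun n => ((c, n) : Gd)) '' Z).Infinite :=
    hZ.image (fun a _ b _ hab => (Prod.mk.inj hab).2)
  exact this.mono (by rintro _ ⟨n, hn, rfl⟩; exact h n hn)

theorem gen_inf {A C : Set Gd} (hA : A ∈ Gen) (hC : C ∈ Gen) (hne : A ≠ C) : (A \ C).Infinite := by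
  rcases hA with rfl | ⟨Z, hZ, rfl⟩ <;> rcases hC with rfl | ⟨W, hW, rfl⟩
  · exact absurd rfl hne
  · exact inf_of none infinite_univ (fun n _ => by simp [B1, BZ])
  · exact inf_of (some none) hZ (fun n hn => by simp [B1, BZ, hn])
  · have : W ≠ Z := by rintro rfl; exact hne rfl
    exact inf_of (some (some W)) infinite_univ (fun n _ => by simp [BZ, this])

def F0 : Set (Set Gd) := {B | ∃ A ∈ Gen, R A B}

theorem F0_good : Good F0 := by
  constructor
  · rintro A ⟨A0, hA0, hA⟩ B ⟨B0, hB0, hB⟩ hAB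
    by_cases h : A0 = B0
    · subst h
      exact R_anti ((R_symm hA).trans hB) hAB
    · exfalso
      apply gen_inf hA0 hB0 h
      refine ((R_fin (R_symm hA)).union (R_fin hB)).subset ?_
      rintro x ⟨h1, h2⟩
      by_cases hx : x ∈ A
      · exact Or.inr ⟨hAB hx, h2⟩
      · exact Or.inl ⟨h1, hx⟩
  · rintro A ⟨A0, hA0, hA⟩ B hAB
    exact ⟨A0, hA0, hA.tail hAB⟩

def I0 : Set Gd := {p | ∃ W, p.1 = some (some W)}

theorem small {F : Set (Set Gd)} (hF : Good F) (h1 : B1 ∈ F) (T : Set Gd) (hT : T.Finite) :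
    ∃ B ∈ F, I0 ∪ T ⊆ B ∧ (B \ (I0 ∪ T)).Infinite := by
  induction T, hT using Set.Finite.induction_on with
  | empty =>
    refine ⟨B1, h1, ?_, inf_of none infinite_univ (fun n _ => by simp [B1, I0])⟩
    rintro p (⟨W, hW⟩ | hp)
    · simp [B1, hW]
    · exact hp.elim
  | @insert z T _ _ ih =>
    obtain ⟨B, hB, hsub, hinf⟩ := ih
    by_cases hz : z ∈ B
    · refine ⟨B, hB, ?_, (hinf.sdiff (finite_singleton z)).mono ?_⟩
      · rintro p (hp | rfl | hp)
        · exact hsub (Or.inl hp)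
        · exact hz
        · exact hsub (Or.inr hp)
      · rintro p ⟨⟨h2, h3⟩, h4⟩
        refine ⟨h2, ?_⟩
        rintro (h | h | h)
        · exact h3 (Or.inl h)
        · exact h4 h
        · exact h3 (Or.inr h)
    · obtain ⟨a, ha1, ha2⟩ := hinf.nonempty
      refine ⟨_, hF.2 B hB _ ⟨a, ha1, z, hz, rfl⟩, ?_,
        (hinf.sdiff ((finite_singleton z).insert a)).mono ?_⟩
      · rintro p (hp | rfl | hp)
        · exact Or.inr ⟨hsub (Or.inl hp), by rintro rfl; exact ha2 (Or.inl hp)⟩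
        · exact Or.inl rfl
        · exact Or.inr ⟨hsub (Or.inr hp), by rintro rfl; exact ha2 (Or.inr hp)⟩
      · rintro p ⟨⟨h2, h3⟩, h4⟩
        simp only [mem_insert_iff, mem_singleton_iff, not_or] at h4
        refine ⟨Or.inr ⟨h2, h4.1⟩, ?_⟩
        rintro (h | h | h)
        · exact h3 (Or.inl h)
        · exact h4.2 h
        · exact h3 (Or.inr h)

theorem not_span {F : Set (Set Gd)} (hF : Good F) (h1 : B1 ∈ F) (Y : Set Gd)
    (hY : (Y \ I0).Finite) : ¬ ∃ B ∈ F, B ⊆ Y := by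
  rintro ⟨B', hB', hsub'⟩
  obtain ⟨B, hB, hsub, hinf⟩ := small hF h1 _ hY
  have h2 : Y ⊆ I0 ∪ (Y \ I0) := by
    intro x hx
    by_cases h : x ∈ I0
    · exact Or.inl h
    · exact Or.inr ⟨hx, h⟩
  have := hF.1 B' hB' B hB (hsub'.trans (h2.trans hsub))
  subst this
  obtain ⟨a, ha1, ha2⟩ := hinf.nonempty
  exact ha2 (h2 (hsub' ha1))

theorem no_matroid {F : Set (Set Gd)} (hF : Good F) (h0 : F0 ⊆ F) :
    ¬ ∃ M : Matroid Gd, M.E = univ ∧ ∀ X, M.closure X = cl F X := by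
  rintro ⟨M, hE, hcl⟩
  have h1 : B1 ∈ F := h0 ⟨B1, Or.inl rfl, .refl⟩
  have hI : M.Indep I0 := by
    rw [Matroid.indep_iff_forall_notMem_closure_sdiff']
    refine ⟨by rw [hE]; exact subset_univ _, fun e _ hc => ?_⟩
    rw [hcl, mem_cl] at hc
    refine hc.elim (not_span hF h1 _ ?_) (by simp)
    rw [sdiff_eq_empty.mpr sdiff_subset]
    exact finite_empty
  obtain ⟨Y, hY, hIY⟩ := hI.subset_isBasis_of_subset (X := {p : Gd | p.1 ≠ none})
    (by rintro p ⟨W, hW⟩; simp [hW]) (by rw [hE]; exact subset_univ _)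
  by_cases hfin : {n : ℕ | (some none, n) ∈ Y}.Finite
  · have hns := not_span hF h1 Y (by
      refine (hfin.image (fun n => ((some none, n) : Gd))).subset ?_
      rintro ⟨c, n⟩ ⟨hp, hp'⟩
      have := hY.subset hp
      rcases c with _ | _ | W
      · exact absurd rfl this
      · exact ⟨n, hp, rfl⟩
      · exact absurd ⟨W, rfl⟩ hp')
    obtain ⟨n, -, hn⟩ := infinite_univ.exists_notMem_finite hfin
    have := hY.subset_closure (show ((some none, n) : Gd) ∈ {p : Gd | p.1 ≠ none} by simp)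
    rw [hcl, mem_cl] at this
    exact this.elim hns hn
  · have hinf : {n : ℕ | (some none, n) ∈ Y}.Infinite := hfin
    obtain ⟨z, hz⟩ := hinf.nonempty
    apply hY.indep.notMem_closure_sdiff_of_mem hz
    rw [hcl, mem_cl]
    left
    refine ⟨BZ ({n : ℕ | (some none, n) ∈ Y} \ {z}),
      h0 ⟨_, Or.inr ⟨_, hinf.sdiff (finite_singleton z), rfl⟩, .refl⟩, ?_⟩
    rintro ⟨c, n⟩ (⟨W, -, hW⟩ | ⟨h2, h3, h4⟩)
    · refine ⟨hIY ⟨W, hW⟩, ?_⟩
      simp only at hW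
      simp [hW]
    · simp only at h2
      subst h2
      exact ⟨h3, by simpa using h4⟩

theorem main : ∃ F : Set (Set Gd), Good F ∧ ∅ ∉ F ∧ (∀ Y, ∃ B ∈ F, Y ⊆ B ∨ B ⊆ Y) ∧
    ¬ ∃ M : Matroid Gd, M.E = univ ∧ ∀ X, M.closure X = cl F X := by
  obtain ⟨F, h0, hF, hc⟩ := exists_max F0_good
  refine ⟨F, hF, fun h => ?_, hc, no_matroid hF h0⟩
  exact not_span hF (h0 ⟨B1, Or.inl rfl, .refl⟩) ∅ (by simp) ⟨∅, h, subset_rfl⟩

end Pool.Agent.H.MP_766cb7_co
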